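import Pool.Agent.H99.SQ.Defs

/-!
# (PC) counting numbers in residue classes
-/

set_option autoImplicit false

namespace Pool.Agent.H12.SQ

open Finset Pool.Agent.H99.SQ

theorem pf_PC : T_PC := by
  intro Q x R A hQ hA
  have h1 : A.card ≤ (x / Q + 1) * R.card := by
    have h2 := card_le_mul_card_image_of_maps_to (s := A) (t := R) (f := fun n => n % Q)
      (fun n hn => (hA n hn).2) (x / Q + 1) ?_
    · exact h2
    · intro r _
      have h3 : (A.filter fun n => n % Q = r).card ≤ (range (x / Q + 1)).card := by
        apply card_le_card_of_injOn (fun n => n / Q)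
        · intro n hn
          rw [mem_coe, mem_filter] at hn
          rw [mem_coe, mem_range]
          exact Nat.lt_succ_of_le (Nat.div_le_div_right (hA n hn.1).1)
        · intro n hn m hm h
          rw [mem_coe, mem_filter] at hn hm
          have e1 := Nat.div_add_mod n Q
          have e2 := Nat.div_add_mod m Q
          dsimp only at h
          rw [h, hn.2] at e1
          rw [hm.2] at e2
          omega
      rw [card_range] at h3
      exact h3
  have h4 : ((x / Q : ℕ) : ℝ) ≤ (x : ℝ) / Q := Nat.cast_div_le
  calc (A.card : ℝ) ≤ (((x / Q + 1) * R.card : ℕ) : ℝ) := by exact_mod_cast h1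
    _ = (((x / Q : ℕ) : ℝ) + 1) * R.card := by push_cast; ring
    _ ≤ _ := by
      apply mul_le_mul_of_nonneg_right _ (Nat.cast_nonneg _)
      linarith

end Pool.Agent.H12.SQ
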